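import Pool.Agent.Helper43_HAM.Stmts

/-! # Hamiltonian cycle counts: the flag graph is `3`-connected (module CN3) -/

set_option autoImplicit false
set_option linter.unusedSectionVars false

namespace Pool.Agent.HAM.H59C

open Equiv

/-! ### cycles of a permutation -/

theorem full {F : Type} [Finite F] (τ : Perm F) (p : F) (r : F → F → Prop)
    (hr : ∀ q, τ.SameCycle p q → r q (τ q)) :
    ∀ a, τ.SameCycle p a → Relation.EqvGen r p a := by
  have h : ∀ i : ℕ, Relation.EqvGen r p ((τ ^ i) p) := by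
    intro i
    induction i with
    | zero => exact Relation.EqvGen.refl _
    | succ i ih =>
      rw [pow_succ', Perm.mul_apply]
      exact ih.trans _ _ _ (Relation.EqvGen.rel _ _ (hr _ ⟨(i : ℤ), by simp⟩))
  intro a ha
  obtain ⟨i, hi⟩ := ha.exists_nat_pow_eq
  rw [← hi]
  exact h i

theorem arc {F : Type} [Finite F] (τ : Perm F) (p₀ : F) (r : F → F → Prop)
    (hr : ∀ p, τ.SameCycle p₀ p → p ≠ p₀ → τ p ≠ p₀ → r p (τ p)) :
    ∀ a, τ.SameCycle p₀ a → a ≠ p₀ → Relation.EqvGen r (τ p₀) a := by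
  classical
  intro a ha hne
  have hex : ∃ i : ℕ, (τ ^ i) p₀ = a := ha.exists_nat_pow_eq
  have hmin : ∀ j, j < Nat.find hex → (τ ^ j) p₀ ≠ a := fun j hj => Nat.find_min hex hj
  have hsp := Nat.find_spec hex
  set n := Nat.find hex with hn
  have hn0 : n ≠ 0 := by
    intro h0
    rw [h0] at hsp
    exact hne (by simpa using hsp.symm)
  have hnp : ∀ j, 1 ≤ j → j ≤ n → (τ ^ j) p₀ ≠ p₀ := by
    intro j hj1 hj2 hj
    apply hmin (n - j) (by omega)
    have h1 : (τ ^ n) p₀ = (τ ^ (n - j)) ((τ ^ j) p₀) := by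
      rw [← Perm.mul_apply, ← pow_add, Nat.sub_add_cancel hj2]
    rw [hj] at h1
    rw [← h1, hsp]
  have h : ∀ j, j + 1 ≤ n → Relation.EqvGen r (τ p₀) ((τ ^ (j + 1)) p₀) := by
    intro j
    induction j with
    | zero => intro _; simpa using Relation.EqvGen.refl (r := r) (τ p₀)
    | succ j ih =>
      intro hj
      have h1 := ih (by omega)
      have h2 : (τ ^ (j + 1 + 1)) p₀ = τ ((τ ^ (j + 1)) p₀) := by
        rw [pow_succ' τ (j + 1), Perm.mul_apply]
      have h3 := hnp (j + 1 + 1) (by omega) hj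
      rw [h2] at h3
      rw [h2]
      exact h1.trans _ _ _ (Relation.EqvGen.rel _ _
        (hr _ ⟨((j + 1 : ℕ) : ℤ), by simp only [zpow_natCast]⟩ (hnp _ (by omega) (by omega)) h3))
  have h4 := h (n - 1) (by omega)
  rw [Nat.sub_add_cancel (by omega), hsp] at h4
  exact h4

section

variable {E : Type} [Fintype E] [DecidableEq E] (σ : Perm (Dart E))

/-- the next flag along a vertex -/
def tau : Perm (Dart E × Bool) where
  toFun p := if p.2 then (p.1, false) else (σ p.1, true)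
  invFun p := if p.2 then (σ⁻¹ p.1, false) else (p.1, true)
  left_inv := by rintro ⟨d, b⟩; cases b <;> simp
  right_inv := by rintro ⟨d, b⟩; cases b <;> simp

theorem tau_true (x : Dart E) : tau σ (x, true) = (x, false) := rfl

theorem tau_false (x : Dart E) : tau σ (x, false) = (σ x, true) := rfl

/-- connectivity without the flags of `s` -/
def Rs (s : Finset (Dart E × Bool)) : Dart E × Bool → Dart E × Bool → Prop :=
  Relation.EqvGen fun p q => p ∉ s ∧ q ∉ s ∧ (gr σ).Adj p q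

theorem adj_tau (p : Dart E × Bool) : (gr σ).Adj p (tau σ p) := by
  obtain ⟨x, b⟩ := p
  cases b
  · left
    exact ⟨rfl, rfl, Or.inr (Or.inr rfl)⟩
  · right
    exact ⟨rfl, rfl, Or.inl rfl⟩

theorem opp_opp (x : Dart E) : opp (opp x) = x := by
  obtain ⟨e, b⟩ := x
  simp [opp]

theorem flip_univ (x : Dart E) : flip Finset.univ x = opp x := by
  show (x.1, if x.1 ∈ Finset.univ then !x.2 else x.2) = (x.1, !x.2)
  simp

theorem adj_rung (x : Dart E) (b : Bool) : (gr σ).Adj (x, b) (opp x, !b) := by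
  cases b
  · left
    exact ⟨rfl, rfl, Or.inr (Or.inl (flip_univ x).symm)⟩
  · right
    refine ⟨rfl, rfl, Or.inr (Or.inl ?_)⟩
    show x = flip Finset.univ (opp x)
    rw [flip_univ, opp_opp]

theorem reach_of (s : Finset (Dart E × Bool)) {p q : Dart E × Bool} (h : Rs σ s p q) :
    (p ∉ s ↔ q ∉ s) ∧ ∀ (hp : p ∉ s) (hq : q ∉ s),
      ((gr σ).induce {v | v ∉ s}).Reachable ⟨p, hp⟩ ⟨q, hq⟩ := by
  induction h with
  | rel p q h =>
    refine ⟨⟨fun _ => h.2.1, fun _ => h.1⟩, fun hp hq => ?_⟩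
    apply SimpleGraph.Adj.reachable
    exact h.2.2
  | refl p => exact ⟨Iff.rfl, fun hp hq => SimpleGraph.Reachable.refl _⟩
  | symm p q _ ih => exact ⟨ih.1.symm, fun hp hq => (ih.2 hq hp).symm⟩
  | trans p q t _ _ ih1 ih2 =>
    exact ⟨ih1.1.trans ih2.1, fun hp ht => (ih1.2 hp (ih1.1.1 hp)).trans (ih2.2 _ ht)⟩

theorem same_of {x y : Dart E} (h : σ.SameCycle x y) (b c : Bool) :
    (tau σ).SameCycle (x, b) (y, c) := by
  have h1 : ∀ (z : Dart E) (b c : Bool), (tau σ).SameCycle (z, b) (z, c) := by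
    have h2 : ∀ z : Dart E, (tau σ).SameCycle (z, true) (z, false) := fun z => ⟨1, rfl⟩
    intro z b c
    cases b <;> cases c
    · exact Perm.SameCycle.refl _ _
    · exact (h2 z).symm
    · exact h2 z
    · exact Perm.SameCycle.refl _ _
  have h2 : ∀ z : Dart E, (tau σ).SameCycle (z, false) (σ z, true) := fun z => ⟨1, rfl⟩
  have h3 : ∀ i : ℕ, (tau σ).SameCycle (x, b) ((σ ^ i) x, b) := by
    intro i
    induction i with
    | zero => exact Perm.SameCycle.refl _ _
    | succ i ih =>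
      rw [pow_succ', Perm.mul_apply]
      exact ((ih.trans (h1 _ b false)).trans (h2 _)).trans (h1 _ true b)
  obtain ⟨i, hi⟩ := h.exists_nat_pow_eq
  rw [← hi]
  exact (h3 i).trans (h1 _ b c)

theorem of_same {p q : Dart E × Bool} (h : (tau σ).SameCycle p q) : σ.SameCycle p.1 q.1 := by
  have h1 : ∀ t : Dart E × Bool, σ.SameCycle t.1 (tau σ t).1 := by
    rintro ⟨z, b⟩
    cases b
    · exact ⟨1, rfl⟩
    · exact Perm.SameCycle.refl _ _
  have h3 : ∀ i : ℕ, σ.SameCycle p.1 ((tau σ ^ i) p).1 := by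
    intro i
    induction i with
    | zero => exact Perm.SameCycle.refl _ _
    | succ i ih =>
      rw [pow_succ', Perm.mul_apply]
      exact ih.trans (h1 _)
  obtain ⟨i, hi⟩ := h.exists_nat_pow_eq
  rw [← hi]
  exact h3 i

theorem vtx (s : Finset (Dart E × Bool)) {x y : Dart E} (h : σ.SameCycle x y)
    (h1 : ∀ p ∈ s, ∀ q ∈ s, σ.SameCycle x p.1 → σ.SameCycle x q.1 → p = q) {b c : Bool}
    (hp : (x, b) ∉ s) (hq : (y, c) ∉ s) : Rs σ s (x, b) (y, c) := by
  by_cases h2 : ∃ p₀ ∈ s, σ.SameCycle x p₀.1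
  · obtain ⟨p₀, hp₀, hx⟩ := h2
    have key := arc (tau σ) p₀ (fun p q => p ∉ s ∧ q ∉ s ∧ (gr σ).Adj p q) (by
      intro p hpp hp1 hp2
      have h3 : σ.SameCycle x p.1 := hx.trans (of_same σ hpp)
      have h4 : σ.SameCycle x (tau σ p).1 := h3.trans (of_same σ ⟨1, rfl⟩)
      exact ⟨fun h => hp1 (h1 p h p₀ hp₀ h3 hx), fun h => hp2 (h1 _ h p₀ hp₀ h4 hx), adj_tau σ p⟩)
    have k1 := key (x, b) (same_of σ hx.symm p₀.2 b) (fun h => hp (h ▸ hp₀))
    have k2 := key (y, c) (same_of σ (hx.symm.trans h) p₀.2 c) (fun h => hq (h ▸ hp₀))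
    exact (k1.symm).trans _ _ _ k2
  · push Not at h2
    refine full (tau σ) (x, b) _ ?_ (y, c) (same_of σ h b c)
    intro q hq
    have h3 : σ.SameCycle x q.1 := of_same σ hq
    have h4 : σ.SameCycle x (tau σ q).1 := h3.trans (of_same σ ⟨1, rfl⟩)
    exact ⟨fun h => h2 _ h h3, fun h => h2 _ h h4, adj_tau σ q⟩

/-- all remaining flags over `a` and `b` are connected -/
def App (s : Finset (Dart E × Bool)) (a b : Dart E) : Prop :=
  ∀ β γ, (a, β) ∉ s → (b, γ) ∉ s → Rs σ s (a, β) (b, γ)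

theorem App.symm {s : Finset (Dart E × Bool)} {a b : Dart E} (h : App σ s a b) : App σ s b a :=
  fun β γ h1 h2 => (h γ β h2 h1).symm

theorem App.trans {s : Finset (Dart E × Bool)} {a b c : Dart E} (hb : ∃ β, (b, β) ∉ s)
    (h1 : App σ s a b) (h2 : App σ s b c) : App σ s a c := by
  intro β γ ha hc
  obtain ⟨δ, hδ⟩ := hb
  exact (h1 β δ ha hδ).trans _ _ _ (h2 δ γ hδ hc)

theorem outside (s : Finset (Dart E × Bool)) (P : Dart E → Prop)
    (h1 : ∀ a, P a → ∃ β, (a, β) ∉ s) (h2 : ∀ a, P a → App σ s a a)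
    (h3 : ∀ a, P a → P (σ a) → App σ s a (σ a)) (h4 : ∀ a, P a → P (opp a) → App σ s a (opp a))
    {a b : Dart E}
    (h : Relation.EqvGen (fun a b => P a ∧ P b ∧ (b = σ a ∨ b = opp a)) a b) :
    (P a ↔ P b) ∧ (P a → App σ s a b) := by
  induction h with
  | rel a b h =>
    obtain ⟨ha, hb, rfl | rfl⟩ := h
    · exact ⟨⟨fun _ => hb, fun _ => ha⟩, fun _ => h3 a ha hb⟩
    · exact ⟨⟨fun _ => hb, fun _ => ha⟩, fun _ => h4 a ha hb⟩
  | refl a => exact ⟨Iff.rfl, h2 a⟩
  | symm a b _ ih => exact ⟨ih.1.symm, fun hb => (ih.2 (ih.1.2 hb)).symm⟩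
  | trans a b c _ _ ih1 ih2 =>
    exact ⟨ih1.1.trans ih2.1, fun ha =>
      (ih1.2 ha).trans σ (h1 b (ih1.1.1 ha)) (ih2.2 (ih1.1.1 ha))⟩

theorem rel {s : Finset (Dart E × Bool)} {p q : Dart E × Bool} (hp : p ∉ s) (hq : q ∉ s)
    (h : (gr σ).Adj p q) : Rs σ s p q := Relation.EqvGen.rel _ _ ⟨hp, hq, h⟩

/-- all removed flags are at one vertex -/
theorem caseB (hσ : TwoConn σ) (s : Finset (Dart E × Bool)) (d₀ : Dart E)
    (hs : ∀ p ∈ s, σ.SameCycle d₀ p.1) (p q : Dart E × Bool) (hp : p ∉ s) (hq : q ∉ s) :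
    Rs σ s p q := by
  have hout : ∀ a, ¬ σ.SameCycle d₀ a → ∀ β, (a, β) ∉ s := fun a ha β h => ha (hs _ h)
  have hself : ∀ a, ¬ σ.SameCycle d₀ a → App σ s a a := by
    intro a ha β γ h1 h2
    cases β <;> cases γ
    · exact Relation.EqvGen.refl _
    · exact (rel σ h2 h1 (adj_tau σ (a, true))).symm
    · exact rel σ h1 h2 (adj_tau σ (a, true))
    · exact Relation.EqvGen.refl _
  have key : ∀ a b, ¬ σ.SameCycle d₀ a → ¬ σ.SameCycle d₀ b → App σ s a b := by
    intro a b ha hb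
    refine (outside σ s (fun x => ¬ σ.SameCycle d₀ x) (fun a ha => ⟨true, hout a ha true⟩)
      hself ?_ ?_ (hσ.2.2 d₀ a b ha hb)).2 ha
    · intro a ha hb
      refine App.trans σ (b := a) ⟨true, hout a ha true⟩ (hself a ha) ?_
      refine fun β γ h1 h2 => ?_
      refine (hself a ha β false h1 (hout a ha _)).trans _ _ _ ?_
      refine (rel σ (hout a ha _) (hout _ hb true) (adj_tau σ (a, false))).trans _ _ _ ?_
      exact hself _ hb true γ (hout _ hb _) h2
    · intro a ha hb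
      refine fun β γ h1 h2 => ?_
      refine (rel σ h1 (hout _ hb _) (adj_rung σ a β)).trans _ _ _ ?_
      exact hself _ hb _ γ (hout _ hb _) h2
  -- every flag is connected to a flag outside
  have h1 : ∀ p : Dart E × Bool, p ∉ s → ∃ q : Dart E × Bool, ¬ σ.SameCycle d₀ q.1 ∧ Rs σ s p q := by
    rintro ⟨x, β⟩ hx
    by_cases h : σ.SameCycle d₀ x
    · have h2 : ¬ σ.SameCycle d₀ (opp x) := fun h3 => hσ.2.1 x (h.symm.trans h3)
      exact ⟨(opp x, !β), h2, rel σ hx (hout _ h2 _) (adj_rung σ x β)⟩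
    · exact ⟨(x, β), h, Relation.EqvGen.refl _⟩
  obtain ⟨p', hp1, hp2⟩ := h1 p hp
  obtain ⟨q', hq1, hq2⟩ := h1 q hq
  exact (hp2.trans _ _ _ (key p'.1 q'.1 hp1 hq1 p'.2 q'.2 (hout _ hp1 _) (hout _ hq1 _))).trans
    _ _ _ hq2.symm

/-- the removed flags are at different vertices -/
theorem caseA (hσ : TwoConn σ) (s : Finset (Dart E × Bool)) (hs : s.card ≤ 2) [Nonempty E]
    (hB : ∀ d₀, ∃ p ∈ s, ¬ σ.SameCycle d₀ p.1) (p q : Dart E × Bool) (hp : p ∉ s) (hq : q ∉ s) :
    Rs σ s p q := by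
  have hpair : ∀ p ∈ s, ∀ q ∈ s, p ≠ q → ∀ r ∈ s, r = p ∨ r = q := by
    intro p hp q hq hpq r hr
    by_contra hcon
    push Not at hcon
    have h3 : ({p, q, r} : Finset (Dart E × Bool)).card = 3 := by
      rw [Finset.card_eq_three]
      exact ⟨p, q, r, hpq, hcon.1.symm, hcon.2.symm, rfl⟩
    have h4 : ({p, q, r} : Finset (Dart E × Bool)) ⊆ s := by
      intro t ht
      simp only [Finset.mem_insert, Finset.mem_singleton] at ht
      rcases ht with rfl | rfl | rfl <;> assumption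
    have h5 := Finset.card_le_card h4
    omega
  have h1 : ∀ x, ∀ p ∈ s, ∀ q ∈ s, σ.SameCycle x p.1 → σ.SameCycle x q.1 → p = q := by
    intro x p hp q hq hxp hxq
    by_contra hpq
    obtain ⟨r, hr, hr2⟩ := hB x
    rcases hpair p hp q hq hpq r hr with rfl | rfl
    · exact hr2 hxp
    · exact hr2 hxq
  have hv : ∀ x y, σ.SameCycle x y → App σ s x y := fun x y h β γ h2 h3 => vtx σ s h (h1 x) h2 h3
  have hsur : ∀ a : Dart E, ∃ β, (a, β) ∉ s := by
    intro a
    by_contra hcon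
    push Not at hcon
    have := h1 a _ (hcon true) _ (hcon false) (Perm.SameCycle.refl _ _) (Perm.SameCycle.refl _ _)
    exact absurd (congrArg Prod.snd this) (by simp)
  have hrung : ∀ (a : Dart E) (β : Bool), (a, β) ∉ s → (opp a, !β) ∉ s → App σ s a (opp a) := by
    intro a β h2 h3 γ δ h4 h5
    refine (hv a a (Perm.SameCycle.refl _ _) γ β h4 h2).trans _ _ _ ?_
    refine (rel σ h2 h3 (adj_rung σ a β)).trans _ _ _ ?_
    exact hv _ _ (Perm.SameCycle.refl _ _) _ δ h3 h5
  have hd₀ : ∃ d₀ : Dart E, ∀ x, x ≠ d₀ → x ≠ opp d₀ → App σ s x (opp x) := by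
    by_cases h : ∀ a : Dart E, App σ s a (opp a)
    · exact ⟨(Classical.arbitrary E, true), fun x _ _ => h x⟩
    · push Not at h
      obtain ⟨a, ha⟩ := h
      have h2 : (a, false) ∈ s ∨ (opp a, true) ∈ s := by
        by_contra hcon
        push Not at hcon
        exact ha (hrung a false hcon.1 hcon.2)
      have h3 : (a, true) ∈ s ∨ (opp a, false) ∈ s := by
        by_contra hcon
        push Not at hcon
        exact ha (hrung a true hcon.1 hcon.2)
      have h4 : ∀ r ∈ s, r.1 = a ∨ r.1 = opp a := by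
        rcases h2 with h2 | h2 <;> rcases h3 with h3 | h3
        · intro r hr
          rcases hpair _ h2 _ h3 (by simp) r hr with rfl | rfl <;> simp
        · intro r hr
          rcases hpair _ h2 _ h3 (by
            intro h5
            have h6 := congrArg (fun t : Dart E × Bool => t.1.2) h5
            simp [opp] at h6) r hr with rfl | rfl <;> simp
        · intro r hr
          rcases hpair _ h2 _ h3 (by
            intro h5
            have h6 := congrArg (fun t : Dart E × Bool => t.1.2) h5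
            simp [opp] at h6) r hr with rfl | rfl <;> simp
        · intro r hr
          rcases hpair _ h2 _ h3 (by simp) r hr with rfl | rfl <;> simp
      refine ⟨a, fun x hx1 hx2 => hrung x false ?_ ?_⟩
      · intro h5
        rcases h4 _ h5 with h6 | h6
        · exact hx1 h6
        · exact hx2 h6
      · intro h5
        rcases h4 _ h5 with h6 | h6
        · apply hx2
          rw [← h6]
          exact (opp_opp x).symm
        · apply hx1
          have := congrArg opp h6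
          rwa [opp_opp, opp_opp] at this
  obtain ⟨d₀, hd⟩ := hd₀
  have key : ∀ a b, ¬ σ.SameCycle d₀ a → ¬ σ.SameCycle d₀ b → App σ s a b := by
    intro a b ha hb
    refine (outside σ s (fun x => ¬ σ.SameCycle d₀ x) (fun a _ => hsur a)
      (fun a _ => hv a a (Perm.SameCycle.refl _ _)) ?_ ?_ (hσ.2.2 d₀ a b ha hb)).2 ha
    · intro a _ _
      exact hv a (σ a) ⟨1, rfl⟩
    · intro a ha hb
      refine hd a ?_ ?_
      · rintro rfl
        exact ha (Perm.SameCycle.refl _ _)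
      · rintro rfl
        rw [opp_opp] at hb
        exact hb (Perm.SameCycle.refl _ _)
  have hs1 : σ.SameCycle d₀ (σ d₀) := ⟨1, rfl⟩
  have hout : ¬ σ.SameCycle d₀ (opp (σ d₀)) := fun h => hσ.2.1 (σ d₀) (hs1.symm.trans h)
  have hx' : App σ s (σ d₀) (opp (σ d₀)) := by
    refine hd _ (hσ.1 d₀) ?_
    intro h
    exact hσ.2.1 d₀ (h ▸ hs1)
  have hall : ∀ a, App σ s a (opp (σ d₀)) := by
    intro a
    by_cases h : σ.SameCycle d₀ a
    · exact App.trans σ (hsur (σ d₀)) (hv a (σ d₀) (h.symm.trans hs1)) hx'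
    · exact key a _ h hout
  exact (App.trans σ (hsur _) (hall p.1) (hall q.1).symm) p.2 q.2 hp hq

end

theorem cn3 : Cn3Stmt := by
  intro E _ _ _ σ hσ
  have hcard : 4 ≤ Nat.card (Dart E × Bool) := by
    rw [Nat.card_eq_fintype_card, Fintype.card_prod, Fintype.card_prod, Fintype.card_bool]
    have : 1 ≤ Fintype.card E := Fintype.card_pos
    omega
  refine ⟨hcard, fun s hs => ?_⟩
  have hne : ∃ p, p ∉ s := by
    by_contra hcon
    push Not at hcon
    have h1 : s = Finset.univ := Finset.eq_univ_of_forall hcon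
    rw [h1, Finset.card_univ, ← Nat.card_eq_fintype_card] at hs
    omega
  have key : ∀ p q, p ∉ s → q ∉ s → Rs σ s p q := by
    intro p q hp hq
    by_cases hB : ∃ d₀, ∀ p ∈ s, σ.SameCycle d₀ p.1
    · obtain ⟨d₀, hd⟩ := hB
      exact caseB σ hσ s d₀ hd p q hp hq
    · push Not at hB
      exact caseA σ hσ s hs hB p q hp hq
  obtain ⟨p₀, hp₀⟩ := hne
  have : Nonempty {v : Dart E × Bool | v ∉ s} := ⟨⟨p₀, hp₀⟩⟩
  refine ⟨?_⟩
  rintro ⟨p, hp⟩ ⟨q, hq⟩
  exact (reach_of σ s (key p q hp hq)).2 hp hq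

end Pool.Agent.HAM.H59C
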