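import Pool.Agent.Helper43_HAM.Stmts
import Pool.Agent.Helper50_HAM.Com

/-! HAM, module COL (helper59): the number of normalised proper `3`-colourings modulo `2`
(uses COM, imported). -/

set_option autoImplicit false

namespace Pool.Agent.HAM.H59

open Equiv
open Pool.Agent.HAM

variable {E : Type} [DecidableEq E]

theorem flip_mem {S : Finset E} {x : Dart E} (h : x.1 ∈ S) : flip S x = (x.1, !x.2) := by
  show (x.1, if x.1 ∈ S then !x.2 else x.2) = _
  rw [if_pos h]

theorem flip_not_mem {S : Finset E} {x : Dart E} (h : x.1 ∉ S) : flip S x = x := by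
  show (x.1, if x.1 ∈ S then !x.2 else x.2) = _
  rw [if_neg h]

theorem conn_sigma (σ : Perm (Dart E)) (S : Finset E) (x : Dart E) : (conn σ S).r x (σ x) :=
  Relation.EqvGen.rel _ _ (Or.inl rfl)

theorem conn_flip (σ : Perm (Dart E)) (S : Finset E) (x : Dart E) : (conn σ S).r x (flip S x) :=
  Relation.EqvGen.rel _ _ (Or.inr rfl)

theorem conn_edge (σ : Perm (Dart E)) {S : Finset E} {e : E} (h : e ∈ S) :
    (conn σ S).r (e, false) (e, true) := by
  have h1 := conn_flip σ S (e, false)
  rwa [flip_mem (show (e, false).1 ∈ S from h)] at h1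

/-- a function which is compatible with `σ` and the edges of `S` is constant on the classes -/
theorem resp {α : Type} (σ : Perm (Dart E)) (S : Finset E) (χ : Dart E → α)
    (h1 : ∀ d, χ (σ d) = χ d) (h2 : ∀ e ∈ S, χ (e, false) = χ (e, true)) (x y : Dart E)
    (h : (conn σ S).r x y) : χ x = χ y := by
  induction h with
  | rel x y h =>
    rcases h with rfl | rfl
    · exact (h1 x).symm
    · by_cases hx : x.1 ∈ S
      · rw [flip_mem hx]
        obtain ⟨e, b⟩ := x
        cases b
        · exact h2 e hx
        · exact (h2 e hx).symm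
      · rw [flip_not_mem hx]
  | refl x => rfl
  | symm x y _ ih => exact ih.symm
  | trans x y z _ _ ih1 ih2 => exact ih1.trans ih2

variable [Fintype E]

open Classical in
/-- the number of functions on a finite set with two prescribed values, modulo `2` -/
theorem count_two {Q : Type} [Fintype Q] (a b : Q) :
    (((Finset.univ.filter fun g : Q → Fin 3 => g a = 0 ∧ g b = 1).card : ℕ) : ZMod 2) =
      if a = b then 0 else 1 := by
  have h : (Finset.univ.filter fun g : Q → Fin 3 => g a = 0 ∧ g b = 1) =
      Fintype.piFinset fun q => Finset.univ.filter fun c : Fin 3 =>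
        (q = a → c = 0) ∧ (q = b → c = 1) := by
    ext g
    simp only [Finset.mem_filter, Finset.mem_univ, true_and, Fintype.mem_piFinset]
    constructor
    · rintro ⟨h1, h2⟩ q
      exact ⟨fun h => h ▸ h1, fun h => h ▸ h2⟩
    · intro h
      exact ⟨(h a).1 rfl, (h b).2 rfl⟩
  rw [h, Fintype.card_piFinset]
  push_cast
  by_cases hab : a = b
  · rw [if_pos hab]
    apply Finset.prod_eq_zero (Finset.mem_univ a)
    subst hab
    have : (Finset.univ.filter fun c : Fin 3 => (a = a → c = 0) ∧ (a = a → c = 1)) = ∅ := by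
      ext c
      simp only [Finset.mem_filter, Finset.mem_univ, true_and, forall_const,
        Finset.notMem_empty, iff_false, not_and]
      rintro rfl h
      exact absurd h (by decide)
    rw [this]
    rfl
  · rw [if_neg hab]
    apply Finset.prod_eq_one
    intro q _
    by_cases hqa : q = a
    · have : (Finset.univ.filter fun c : Fin 3 => (q = a → c = 0) ∧ (q = b → c = 1)) = {0} := by
        ext c
        simp only [Finset.mem_filter, Finset.mem_univ, true_and, Finset.mem_singleton]
        constructor
        · intro h; exact h.1 hqa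
        · intro h; exact ⟨fun _ => h, fun h2 => absurd (hqa.symm.trans h2) hab⟩
      rw [this]
      rfl
    · by_cases hqb : q = b
      · have : (Finset.univ.filter fun c : Fin 3 => (q = a → c = 0) ∧ (q = b → c = 1)) =
            {1} := by
          ext c
          simp only [Finset.mem_filter, Finset.mem_univ, true_and, Finset.mem_singleton]
          constructor
          · intro h; exact h.2 hqb
          · intro h; exact ⟨fun h2 => absurd h2 hqa, fun _ => h⟩
        rw [this]
        rfl
      · have : (Finset.univ.filter fun c : Fin 3 => (q = a → c = 0) ∧ (q = b → c = 1)) =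
            Finset.univ := by
          ext c
          simp [hqa, hqb]
        rw [this]
        rfl

open Classical in
/-- colourings compatible with the edges of `S` -/
theorem count_S (σ : Perm (Dart E)) (S : Finset E) (x y : Dart E) :
    (((Finset.univ.filter fun χ : Dart E → Fin 3 => ((∀ d, χ (σ d) = χ d) ∧ χ x = 0 ∧ χ y = 1) ∧
      ∀ e ∈ S, χ (e, false) = χ (e, true)).card : ℕ) : ZMod 2) =
      if (conn σ S).r x y then 0 else 1 := by
  have hfin : Fintype (Quotient (conn σ S)) := Fintype.ofFinite _
  have h := count_two (Q := Quotient (conn σ S)) (Quotient.mk _ x) (Quotient.mk _ y)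
  have hq : (Quotient.mk (conn σ S) x = Quotient.mk (conn σ S) y) ↔ (conn σ S).r x y :=
    Quotient.eq
  simp only [hq] at h
  rw [← h]
  refine congrArg (Nat.cast : ℕ → ZMod 2) ?_
  have himg : (Finset.univ.filter fun χ : Dart E → Fin 3 =>
      ((∀ d, χ (σ d) = χ d) ∧ χ x = 0 ∧ χ y = 1) ∧ ∀ e ∈ S, χ (e, false) = χ (e, true)) =
      (Finset.univ.filter fun g : Quotient (conn σ S) → Fin 3 =>
        g (Quotient.mk _ x) = 0 ∧ g (Quotient.mk _ y) = 1).image
        (fun g => g ∘ Quotient.mk (conn σ S)) := by
    ext χ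
    simp only [Finset.mem_filter, Finset.mem_univ, true_and, Finset.mem_image]
    constructor
    · rintro ⟨⟨h1, h2, h3⟩, h4⟩
      refine ⟨Quotient.lift χ (resp σ S χ h1 h4), ⟨h2, h3⟩, ?_⟩
      funext d
      rfl
    · rintro ⟨g, ⟨h1, h2⟩, rfl⟩
      refine ⟨⟨fun d => ?_, h1, h2⟩, fun e he => ?_⟩
      · show g (Quotient.mk _ (σ d)) = g (Quotient.mk _ d)
        exact congrArg g (Quotient.sound ((conn σ S).symm (conn_sigma σ S d)))
      · show g (Quotient.mk _ (e, false)) = g (Quotient.mk _ (e, true))
        exact congrArg g (Quotient.sound (conn_edge σ he))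
  rw [himg, Finset.card_image_of_injective _
    (Quotient.mk_surjective (s := conn σ S)).injective_comp_right]
  refine congrArg Finset.card ?_
  ext g
  simp only [Finset.mem_filter, Finset.mem_univ, true_and]

open Classical in
theorem col_aux (hcom : ComStmt) : ColStmt := by
  intro E _ _ σ e₀ _
  -- expand the product
  have h1 : ((colCount σ e₀ : ℕ) : ZMod 2) = ∑ S : Finset E,
      (((Finset.univ.filter fun χ : Dart E → Fin 3 =>
        ((∀ d, χ (σ d) = χ d) ∧ χ (e₀, false) = 0 ∧ χ (e₀, true) = 1) ∧
        ∀ e ∈ S, χ (e, false) = χ (e, true)).card : ℕ) : ZMod 2) := by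
    have h2 : ∀ S : Finset E, (((Finset.univ.filter fun χ : Dart E → Fin 3 =>
        ((∀ d, χ (σ d) = χ d) ∧ χ (e₀, false) = 0 ∧ χ (e₀, true) = 1) ∧
        ∀ e ∈ S, χ (e, false) = χ (e, true)).card : ℕ) : ZMod 2) =
        ∑ χ : Dart E → Fin 3, (if (∀ d, χ (σ d) = χ d) ∧ χ (e₀, false) = 0 ∧ χ (e₀, true) = 1
          then 1 else 0) * ∏ e ∈ S, (if χ (e, false) = χ (e, true) then 1 else 0) := by
      intro S
      rw [← Finset.sum_boole]
      refine Finset.sum_congr rfl fun χ _ => ?_
      by_cases hA : (∀ d, χ (σ d) = χ d) ∧ χ (e₀, false) = 0 ∧ χ (e₀, true) = 1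
      · by_cases hB : ∀ e ∈ S, χ (e, false) = χ (e, true)
        · rw [if_pos ⟨hA, hB⟩, if_pos hA, Finset.prod_congr rfl fun e he => if_pos (hB e he)]
          simp
        · rw [if_neg fun h => hB h.2, if_pos hA, one_mul]
          push Not at hB
          obtain ⟨e, he, hne⟩ := hB
          exact (Finset.prod_eq_zero he (if_neg hne)).symm
      · rw [if_neg fun h => hA h.1, if_neg hA, zero_mul]
    simp only [h2]
    rw [Finset.sum_comm]
    have h3 : ∀ χ : Dart E → Fin 3, ∑ S : Finset E,
        (if (∀ d, χ (σ d) = χ d) ∧ χ (e₀, false) = 0 ∧ χ (e₀, true) = 1 then (1 : ZMod 2) else 0) *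
          ∏ e ∈ S, (if χ (e, false) = χ (e, true) then 1 else 0) =
        if (∀ d, χ (σ d) = χ d) ∧ (∀ e, χ (e, false) ≠ χ (e, true)) ∧ χ (e₀, false) = 0 ∧
          χ (e₀, true) = 1 then 1 else 0 := by
      intro χ
      rw [← Finset.mul_sum]
      have h4 : ∑ S : Finset E, ∏ e ∈ S, (if χ (e, false) = χ (e, true) then (1 : ZMod 2) else 0) =
          ∏ e : E, (1 + if χ (e, false) = χ (e, true) then (1 : ZMod 2) else 0) := by
        rw [Finset.prod_one_add]
        rfl
      rw [h4]
      by_cases hB : ∀ e, χ (e, false) ≠ χ (e, true)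
      · have h5 : ∏ e : E, (1 + if χ (e, false) = χ (e, true) then (1 : ZMod 2) else 0) = 1 := by
          apply Finset.prod_eq_one
          intro e _
          rw [if_neg (hB e), add_zero]
        rw [h5, mul_one]
        by_cases hA : (∀ d, χ (σ d) = χ d) ∧ χ (e₀, false) = 0 ∧ χ (e₀, true) = 1
        · rw [if_pos hA, if_pos ⟨hA.1, hB, hA.2⟩]
        · rw [if_neg hA, if_neg fun h => hA ⟨h.1, h.2.2⟩]
      · have hB' := hB
        push Not at hB'
        obtain ⟨e, he⟩ := hB'
        have h5 : ∏ e : E, (1 + if χ (e, false) = χ (e, true) then (1 : ZMod 2) else 0) = 0 := by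
          apply Finset.prod_eq_zero (Finset.mem_univ e)
          rw [if_pos he]
          rfl
        rw [h5, mul_zero, if_neg fun h => hB h.2.1]
    simp only [h3]
    rw [Finset.sum_boole]
    congr 1
    unfold colCount
    rw [Nat.card_eq_fintype_card, Fintype.card_subtype]
  rw [h1]
  simp only [count_S]
  -- split according to `e₀`
  have huniv : (Finset.univ : Finset (Finset E)) =
      Finset.powerset (insert e₀ (Finset.univ.erase e₀)) := by
    rw [Finset.insert_erase (Finset.mem_univ e₀), Finset.powerset_univ]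
  have hne : e₀ ∉ Finset.univ.erase e₀ := Finset.notMem_erase _ _
  rw [huniv, Finset.sum_powerset_insert hne, Finset.sum_powerset_insert hne,
    ← Finset.sum_add_distrib, ← Finset.sum_add_distrib]
  refine Finset.sum_congr rfl fun S hS => ?_
  have hS' : e₀ ∉ S := fun h => hne (Finset.mem_powerset.mp hS h)
  rw [if_pos (conn_edge σ (Finset.mem_insert_self e₀ S)), add_zero]
  obtain ⟨hc1, hc2⟩ := hcom E σ S e₀ hS'
  by_cases hc : (conn σ S).r (e₀, false) (e₀, true)
  · rw [if_pos hc, hc1 hc]
    exact (CharTwo.add_self_eq_zero _).symm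
  · rw [if_neg hc, ← hc2 hc]
    push_cast
    rw [add_right_comm, CharTwo.add_self_eq_zero, zero_add]

/-- module COL -/
theorem col : ColStmt := col_aux H50.com

end Pool.Agent.HAM.H59
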