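import Pool.Agent.Helper43_HAM.Stmts
import Pool.Agent.Helper50_HAM.Com

/-! HAM, module PAI (helper59): the number of pairs (state, circuit through all edges)
modulo `4`. -/

set_option autoImplicit false

namespace Pool.Agent.HAM.H59P

open Equiv
open Pool.Agent.HAM

open Classical in
/-- the cycles of `π` -/
noncomputable def cyF {D : Type} [Fintype D] (π : Perm D) : Finset (Set D) :=
  Finset.univ.filter (IsCycleOf π)

/-- the cycle of `x` -/
def orb {D : Type} (π : Perm D) (x : D) : Set D := {y | π.SameCycle x y}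

theorem orb_eq {D : Type} (π : Perm D) (x y : D) : orb π x = orb π y ↔ π.SameCycle x y := by
  constructor
  · intro h
    have h1 : y ∈ orb π y := Perm.SameCycle.refl π y
    rw [← h] at h1
    exact h1
  · intro h
    ext z
    exact ⟨fun h2 => h.symm.trans h2, fun h2 => h.trans h2⟩

theorem mem_cyF {D : Type} [Fintype D] (π : Perm D) (T : Set D) :
    T ∈ cyF π ↔ IsCycleOf π T := by
  simp [cyF]

theorem card_cyF {D : Type} [Fintype D] (π : Perm D) : (cyF π).card = cyc π := by
  classical
  unfold cyc
  have h : Function.Injective (fun q : Quotient (Perm.SameCycle.setoid π) =>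
      {y : D | Quotient.mk (Perm.SameCycle.setoid π) y = q}) := by
    intro q q' h
    obtain ⟨x, rfl⟩ := Quotient.exists_rep q
    have h1 : x ∈ {y : D | Quotient.mk (Perm.SameCycle.setoid π) y =
        Quotient.mk (Perm.SameCycle.setoid π) x} := rfl
    have h2 := (Set.ext_iff.mp h x).1 h1
    exact h2
  have hf : Fintype (Quotient (Perm.SameCycle.setoid π)) := Fintype.ofFinite _
  rw [Nat.card_eq_fintype_card, ← Finset.card_univ, ← Finset.card_image_of_injective _ h]
  congr 1
  ext T
  rw [mem_cyF, Finset.mem_image]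
  constructor
  · rintro ⟨x, rfl⟩
    refine ⟨Quotient.mk _ x, Finset.mem_univ _, ?_⟩
    ext y
    show Quotient.mk _ y = Quotient.mk _ x ↔ π.SameCycle x y
    rw [Quotient.eq]
    exact Perm.sameCycle_comm
  · rintro ⟨q, _, rfl⟩
    obtain ⟨x, rfl⟩ := Quotient.exists_rep q
    refine ⟨x, ?_⟩
    ext y
    show Quotient.mk _ y = Quotient.mk _ x ↔ π.SameCycle x y
    rw [Quotient.eq]
    exact Perm.sameCycle_comm

open Classical in
theorem cyF_miss {D : Type} [Fintype D] (π : Perm D) (x y : D) :
    ((cyF π).filter fun T => x ∉ T ∧ y ∉ T).card + (if π.SameCycle x y then 1 else 2) =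
      cyc π := by
  have h1 : ((cyF π).filter fun T => x ∉ T ∧ y ∉ T) = cyF π \ {orb π x, orb π y} := by
    ext T
    simp only [Finset.mem_filter, Finset.mem_sdiff, Finset.mem_insert, Finset.mem_singleton,
      not_or]
    constructor
    · rintro ⟨h, h2, h3⟩
      refine ⟨h, ?_, ?_⟩
      · rintro rfl
        exact h2 (Perm.SameCycle.refl π x)
      · rintro rfl
        exact h3 (Perm.SameCycle.refl π y)
    · rintro ⟨h, h2, h3⟩
      refine ⟨h, fun hx => h2 ?_, fun hy => h3 ?_⟩
      · obtain ⟨z, rfl⟩ := (mem_cyF π T).1 h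
        exact (orb_eq π z x).2 hx
      · obtain ⟨z, rfl⟩ := (mem_cyF π T).1 h
        exact (orb_eq π z y).2 hy
  have hsub : ({orb π x, orb π y} : Finset (Set D)) ⊆ cyF π := by
    intro T hT
    simp only [Finset.mem_insert, Finset.mem_singleton] at hT
    rcases hT with rfl | rfl
    · exact (mem_cyF π _).2 ⟨x, rfl⟩
    · exact (mem_cyF π _).2 ⟨y, rfl⟩
  have h2 : ({orb π x, orb π y} : Finset (Set D)).card = if π.SameCycle x y then 1 else 2 := by
    split_ifs with h
    · rw [(orb_eq π x y).2 h, Finset.pair_eq_singleton, Finset.card_singleton]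
    · rw [Finset.card_pair fun h2 => h ((orb_eq π x y).1 h2)]
  rw [h1, ← card_cyF π, ← h2]
  exact Finset.card_sdiff_add_card_eq_card hsub

/-! ### toggling an edge which is missed -/

section

variable {E : Type} [DecidableEq E]

theorem rho_insert (σ : Perm (Dart E)) (S : Finset E) (e : E) (he : e ∉ S) :
    rho σ (insert e S) = swap (e, false) (e, true) * rho σ S := by
  have h : flip (insert e S) = swap (e, false) (e, true) * flip S := by
    ext1 ⟨f, b⟩
    rw [Perm.mul_apply]
    by_cases hf : f = e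
    · subst hf
      rw [H50.flip_insert_self, H50.flip_self_of_not_mem S f he]
      cases b
      · exact (swap_apply_left _ _).symm
      · exact (swap_apply_right _ _).symm
    · rw [H50.flip_insert_ne S e (f, b) hf]
      refine (swap_apply_of_ne_of_ne ?_ ?_).symm
      · intro h
        exact hf (congrArg Prod.fst h)
      · intro h
        exact hf (congrArg Prod.fst h)
  unfold rho
  rw [h, mul_assoc]

/-- a cycle of `π` which avoids `x` and `y` is a cycle of `swap x y * π` -/
theorem cycle_swap {D : Type} [DecidableEq D] (π : Perm D) (x y : D) (T : Set D)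
    (hx : x ∉ T) (hy : y ∉ T) (h : IsCycleOf π T) : IsCycleOf (swap x y * π) T := by
  obtain ⟨z, rfl⟩ := h
  have hstep : ∀ w, π.SameCycle z w → (swap x y * π) w = π w := by
    intro w hw
    rw [Perm.mul_apply]
    have h1 : π.SameCycle z (π w) := hw.apply_right
    refine swap_apply_of_ne_of_ne ?_ ?_
    · rintro h2
      exact hx (h2 ▸ h1)
    · rintro h2
      exact hy (h2 ▸ h1)
  have hstepi : ∀ w, π.SameCycle z w → (swap x y * π)⁻¹ w = π⁻¹ w := by
    intro w hw
    rw [Perm.inv_eq_iff_eq]
    have h1 : π.SameCycle z (π⁻¹ w) := by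
      obtain ⟨i, hi⟩ := hw
      refine ⟨-1 + i, ?_⟩
      rw [zpow_add, Perm.mul_apply, hi, zpow_neg_one]
    rw [hstep _ h1]
    exact (π.apply_symm_apply w).symm
  have hpow : ∀ n : ℕ, ((swap x y * π) ^ n) z = (π ^ n) z := by
    intro n
    induction n with
    | zero => rfl
    | succ n ih =>
      rw [pow_succ', Perm.mul_apply, ih, hstep _ ⟨n, by simp⟩, pow_succ', Perm.mul_apply]
  have hpowi : ∀ n : ℕ, (((swap x y * π)⁻¹) ^ n) z = ((π⁻¹) ^ n) z := by
    intro n
    induction n with
    | zero => rfl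
    | succ n ih =>
      rw [pow_succ', Perm.mul_apply, ih, hstepi _ ⟨-(n : ℤ), by simp [zpow_neg]⟩, pow_succ',
        Perm.mul_apply]
  refine ⟨z, ?_⟩
  ext w
  show π.SameCycle z w ↔ (swap x y * π).SameCycle z w
  have hz : ∀ i : ℤ, ((swap x y * π) ^ i) z = (π ^ i) z := by
    intro i
    obtain ⟨n, rfl | rfl⟩ := Int.eq_nat_or_neg i
    · exact hpow n
    · rw [zpow_neg, zpow_natCast, ← inv_pow, hpowi, zpow_neg, zpow_natCast, ← inv_pow]
  constructor
  · rintro ⟨i, hi⟩
    exact ⟨i, (hz i).trans hi⟩
  · rintro ⟨i, hi⟩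
    exact ⟨i, (hz i).symm.trans hi⟩

theorem toggle (σ : Perm (Dart E)) (S : Finset E) (e : E) (he : e ∉ S) (T : Set (Dart E))
    (h0 : (e, false) ∉ T) (h1 : (e, true) ∉ T) :
    IsCycleOf (rho σ (insert e S)) T ↔ IsCycleOf (rho σ S) T := by
  rw [rho_insert σ S e he]
  constructor
  · intro h
    have h2 := cycle_swap _ (e, false) (e, true) T h0 h1 h
    rwa [← mul_assoc, swap_mul_self, one_mul] at h2
  · exact cycle_swap _ (e, false) (e, true) T h0 h1

open Classical in
/-- halving -/
theorem halve [Fintype E] (Q : Finset E → Prop) (e : E)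
    (h : ∀ S, e ∉ S → (Q (insert e S) ↔ Q S)) :
    (Finset.univ.filter Q).card = 2 * (Finset.univ.filter fun S => Q S ∧ e ∉ S).card := by
  have h1 : (Finset.univ.filter Q) = (Finset.univ.filter fun S => Q S ∧ e ∉ S) ∪
      (Finset.univ.filter fun S => Q S ∧ e ∉ S).image (insert e) := by
    ext S
    simp only [Finset.mem_filter, Finset.mem_univ, true_and, Finset.mem_union, Finset.mem_image]
    constructor
    · intro hS
      by_cases he : e ∈ S
      · right
        refine ⟨S.erase e, ⟨?_, Finset.notMem_erase e S⟩, Finset.insert_erase he⟩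
        rw [← h _ (Finset.notMem_erase e S), Finset.insert_erase he]
        exact hS
      · exact Or.inl ⟨hS, he⟩
    · rintro (hS | ⟨S', hS', rfl⟩)
      · exact hS.1
      · exact (h S' hS'.2).2 hS'.1
  rw [h1, Finset.card_union_of_disjoint, Finset.card_image_of_injOn, two_mul]
  · intro S hS S' hS' hSS
    simp only [Finset.coe_filter, Finset.mem_univ, true_and, Set.mem_ofPred_eq] at hS hS'
    rw [← Finset.erase_insert hS.2, ← Finset.erase_insert hS'.2, hSS]
  · rw [Finset.disjoint_left]
    intro S hS hS'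
    simp only [Finset.mem_filter, Finset.mem_univ, true_and, Finset.mem_image] at hS hS'
    obtain ⟨S', _, rfl⟩ := hS'
    exact hS.2 (Finset.mem_insert_self e S')

end

/-! ### sums of sizes -/

theorem sum_card {E : Type} [DecidableEq E] (X : Finset E) :
    ∑ S ∈ X.powerset, S.card * 2 = X.card * 2 ^ X.card := by
  induction X using Finset.induction_on with
  | empty => simp
  | insert a X ha ih =>
    rw [Finset.sum_powerset_insert ha, Finset.card_insert_of_notMem ha]
    have h1 : ∑ S ∈ X.powerset, (insert a S).card * 2 = ∑ S ∈ X.powerset, (S.card * 2 + 2) := by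
      refine Finset.sum_congr rfl fun S hS => ?_
      have h : a ∉ S := fun h => ha (Finset.mem_powerset.mp hS h)
      rw [Finset.card_insert_of_notMem h]
      ring
    rw [h1, Finset.sum_add_distrib, ih, Finset.sum_const, Finset.card_powerset, smul_eq_mul]
    ring

theorem sum_card' {E : Type} [DecidableEq E] (X : Finset E) (n : ℕ) (h : X.card = n + 1) :
    ∑ S ∈ X.powerset, S.card = (n + 1) * 2 ^ n := by
  have h1 := sum_card X
  rw [← Finset.sum_mul, h, pow_succ] at h1
  have h2 : (∑ S ∈ X.powerset, S.card) * 2 = ((n + 1) * 2 ^ n) * 2 := by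
    rw [h1]; ring
  exact Nat.eq_of_mul_eq_mul_right (by norm_num) h2

theorem two_mul_cast (a b : ℕ) (h : (a : ZMod 2) = b) : 2 * (a : ZMod 4) = 2 * (b : ZMod 4) := by
  have h1 : a ≡ b [MOD 2] := (ZMod.natCast_eq_natCast_iff a b 2).1 h
  have h2 : 2 * a ≡ 2 * b [MOD 2 * 2] := h1.mul_left' 2
  have h3 := (ZMod.natCast_eq_natCast_iff (2 * a) (2 * b) 4).2 h2
  push_cast at h3
  exact h3

section

variable {E : Type} [DecidableEq E] [Fintype E]

open Classical in
/-- the states which have `T` as a circuit -/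
noncomputable def F (σ : Perm (Dart E)) (T : Set (Dart E)) : Finset (Finset E) :=
  Finset.univ.filter fun S => IsCycleOf (rho σ S) T

open Classical in
/-- the edges missed by `T` -/
noncomputable def M (T : Set (Dart E)) : Finset E :=
  Finset.univ.filter fun e => (e, false) ∉ T ∧ (e, true) ∉ T

omit [DecidableEq E] in
theorem mem_M (T : Set (Dart E)) (e : E) : e ∈ M T ↔ (e, false) ∉ T ∧ (e, true) ∉ T := by
  simp [M]

theorem M_empty (T : Set (Dart E)) : M T = ∅ ↔ ∀ e, (e, false) ∈ T ∨ (e, true) ∈ T := by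
  rw [Finset.eq_empty_iff_forall_notMem]
  constructor
  · intro h e
    have := h e
    rw [mem_M] at this
    tauto
  · intro h e he
    rw [mem_M] at he
    have := h e
    tauto

open Classical in
/-- the pointwise identity -/
theorem pointwise (σ : Perm (Dart E)) (T : Set (Dart E)) :
    (if M T = ∅ then (((F σ T).card : ℕ) : ZMod 4) else 0) =
      ((F σ T).card : ℕ) + 2 * ∑ e ∈ M T, ((((F σ T).filter fun S => e ∉ S).card : ℕ) : ZMod 4) := by
  have h1 : ∀ e ∈ M T, (F σ T).card = 2 * ((F σ T).filter fun S => e ∉ S).card := by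
    intro e he
    obtain ⟨h0, h1⟩ := (mem_M T e).1 he
    have h := halve (fun S => IsCycleOf (rho σ S) T) e
      (fun S hS => toggle σ S e hS T h0 h1)
    unfold F
    rw [h, Finset.filter_filter]
  have h2 : ∀ e ∈ M T, ∀ e' ∈ M T, e' ≠ e →
      ∃ n, ((F σ T).filter fun S => e ∉ S).card = 2 * n := by
    intro e he e' he' hne
    obtain ⟨h0, h1⟩ := (mem_M T e').1 he'
    have h := halve (fun S => IsCycleOf (rho σ S) T ∧ e ∉ S) e' (fun S hS => by
      rw [toggle σ S e' hS T h0 h1, Finset.mem_insert, not_or]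
      constructor
      · rintro ⟨ha, hb⟩
        exact ⟨ha, hb.2⟩
      · rintro ⟨ha, hb⟩
        exact ⟨ha, hne.symm, hb⟩)
    refine ⟨(Finset.univ.filter fun S =>
      (IsCycleOf (rho σ S) T ∧ e ∉ S) ∧ e' ∉ S).card, ?_⟩
    unfold F
    rw [Finset.filter_filter]
    convert h
  by_cases hM : M T = ∅
  · rw [if_pos hM, hM]
    simp
  · rw [if_neg hM]
    obtain ⟨e, he⟩ := Finset.nonempty_iff_ne_empty.2 hM
    by_cases h3 : ∃ e' ∈ M T, e' ≠ e
    · obtain ⟨e', he', hne⟩ := h3
      have h4 : ∀ f ∈ M T, 2 * ((((F σ T).filter fun S => f ∉ S).card : ℕ) : ZMod 4) = 0 := by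
        intro f hf
        obtain ⟨f', hf', hne'⟩ : ∃ f' ∈ M T, f' ≠ f := by
          by_cases hfe : f = e
          · exact ⟨e', he', hfe ▸ hne⟩
          · exact ⟨e, he, fun h => hfe h.symm⟩
        obtain ⟨n, hn⟩ := h2 f hf f' hf' hne'
        rw [hn]
        push_cast
        rw [← mul_assoc]
        have : (2 * 2 : ZMod 4) = 0 := rfl
        rw [this, zero_mul]
      rw [Finset.mul_sum, Finset.sum_eq_zero h4, add_zero, h1 e he]
      push_cast
      exact (h4 e he).symm
    · push Not at h3
      have h4 : M T = {e} := by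
        ext f
        rw [Finset.mem_singleton]
        exact ⟨h3 f, fun h => h ▸ he⟩
      have h5 := h1 e he
      rw [h4, Finset.sum_singleton, h5]
      push_cast
      have : ∀ a : ZMod 4, 0 = 2 * a + 2 * a := by decide
      exact this _

open Classical in
/-- `S ∌ e`: the number of circuits which miss `e`, modulo `2` -/
theorem miss_mod (hcyc : CycStmt) (σ : Perm (Dart E)) (hp : AllPlane σ) (S : Finset E) (e : E)
    (he : e ∉ S) :
    ((((cyF (rho σ S)).filter fun T => (e, false) ∉ T ∧ (e, true) ∉ T).card : ℕ) : ZMod 2) =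
      ((S.card + cyc σ + 1 + comp σ S + comp σ (insert e S) : ℕ) : ZMod 2) := by
  have h1 := cyF_miss (rho σ S) (e, false) (e, true)
  have h2 := hp S
  have h3 := hp (insert e S)
  rw [Finset.card_insert_of_notMem he, rho_insert σ S e he] at h3
  have hne : ((e, false) : Dart E) ≠ (e, true) := by
    intro h
    exact absurd (congrArg Prod.snd h) (by simp)
  obtain ⟨h4, h5⟩ := hcyc (Dart E) (rho σ S) (e, false) (e, true) hne
  rw [ZMod.natCast_eq_natCast_iff]
  unfold Nat.ModEq
  by_cases hs : (rho σ S).SameCycle (e, false) (e, true)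
  · rw [if_pos hs] at h1
    have h6 := h4 hs
    omega
  · rw [if_neg hs] at h1
    have h6 := h5 hs
    omega

open Classical in
/-- module PAI (uses CYC) -/
theorem pai_aux (hcyc : CycStmt) : PaiStmt := by
  intro E _ _ σ hp hE hev
  -- the pairs
  have hpairs : ((pairs σ : ℕ) : ZMod 4) =
      ∑ T : Set (Dart E), if M T = ∅ then (((F σ T).card : ℕ) : ZMod 4) else 0 := by
    unfold pairs
    rw [Nat.card_eq_fintype_card, Fintype.card_subtype, ← Finset.sum_boole,
      Fintype.sum_prod_type_right]
    refine Finset.sum_congr rfl fun T _ => ?_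
    unfold F
    rw [← Finset.sum_boole]
    by_cases hM : M T = ∅
    · rw [if_pos hM]
      refine Finset.sum_congr rfl fun S _ => ?_
      have := (M_empty T).1 hM
      by_cases hc : IsCycleOf (rho σ S) T
      · rw [if_pos ⟨hc, this⟩, if_pos hc]
      · rw [if_neg fun h => hc h.1, if_neg hc]
    · rw [if_neg hM]
      apply Finset.sum_eq_zero
      intro S _
      exact if_neg fun h => hM ((M_empty T).2 h.2)
  rw [hpairs]
  simp only [pointwise]
  rw [Finset.sum_add_distrib, ← Finset.mul_sum]
  -- first sum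
  have hA : ∑ T : Set (Dart E), (((F σ T).card : ℕ) : ZMod 4) =
      ∑ S : Finset E, ((cyc (rho σ S) : ℕ) : ZMod 4) := by
    have h1 : ∀ T : Set (Dart E), (((F σ T).card : ℕ) : ZMod 4) =
        ∑ S : Finset E, if IsCycleOf (rho σ S) T then 1 else 0 := by
      intro T
      rw [Finset.sum_boole]
      rfl
    simp only [h1]
    rw [Finset.sum_comm]
    refine Finset.sum_congr rfl fun S _ => ?_
    rw [Finset.sum_boole, ← card_cyF]
    rfl
  -- second sum
  have hB : ∑ T : Set (Dart E), ∑ e ∈ M T, ((((F σ T).filter fun S => e ∉ S).card : ℕ) : ZMod 4) =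
      ∑ e : E, ((∑ S ∈ (Finset.univ.erase e).powerset,
        ((cyF (rho σ S)).filter fun T => (e, false) ∉ T ∧ (e, true) ∉ T).card : ℕ) : ZMod 4) := by
    have h1 : ∀ T : Set (Dart E), ∑ e ∈ M T, ((((F σ T).filter fun S => e ∉ S).card : ℕ) : ZMod 4) =
        ∑ e : E, ∑ S : Finset E, if (IsCycleOf (rho σ S) T ∧ e ∉ S) ∧ (e, false) ∉ T ∧ (e, true) ∉ T
          then 1 else 0 := by
      intro T
      unfold M
      rw [Finset.sum_filter]
      refine Finset.sum_congr rfl fun e _ => ?_
      by_cases he : (e, false) ∉ T ∧ (e, true) ∉ T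
      · rw [if_pos he]
        unfold F
        rw [Finset.filter_filter, ← Finset.sum_boole]
        refine Finset.sum_congr rfl fun S _ => ?_
        by_cases hc : IsCycleOf (rho σ S) T ∧ e ∉ S
        · rw [if_pos hc, if_pos ⟨hc, he⟩]
        · rw [if_neg hc, if_neg fun h => hc h.1]
      · rw [if_neg he]
        symm
        apply Finset.sum_eq_zero
        intro S _
        exact if_neg fun h => he h.2
    simp only [h1]
    rw [Finset.sum_comm]
    refine Finset.sum_congr rfl fun e _ => ?_
    rw [Finset.sum_comm]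
    push_cast
    have h2 : (Finset.univ.erase e).powerset = Finset.univ.filter fun S : Finset E => e ∉ S := by
      ext S
      rw [Finset.mem_powerset, Finset.mem_filter, Finset.subset_erase]
      simp
    rw [h2, Finset.sum_filter]
    refine Finset.sum_congr rfl fun S _ => ?_
    by_cases he : e ∉ S
    · rw [if_pos he]
      unfold cyF
      rw [Finset.filter_filter, ← Finset.sum_boole]
      refine Finset.sum_congr rfl fun T _ => ?_
      by_cases hc : IsCycleOf (rho σ S) T ∧ (e, false) ∉ T ∧ (e, true) ∉ T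
      · rw [if_pos hc, if_pos ⟨⟨hc.1, he⟩, hc.2⟩]
      · rw [if_neg hc, if_neg fun h => hc ⟨h.1.1, h.2⟩]
    · rw [if_neg he]
      apply Finset.sum_eq_zero
      intro T _
      exact if_neg fun h => he h.1.2
  obtain ⟨n, hn⟩ : ∃ n, Fintype.card E = n + 3 := ⟨Fintype.card E - 3, by omega⟩
  obtain ⟨β, hβ⟩ : ∃ β : ℕ, β = ∑ S : Finset E, comp σ S := ⟨_, rfl⟩
  -- each `e` gives `β`
  have hC : ∀ e : E, 2 * ((∑ S ∈ (Finset.univ.erase e).powerset,
      ((cyF (rho σ S)).filter fun T => (e, false) ∉ T ∧ (e, true) ∉ T).card : ℕ) : ZMod 4) =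
      2 * (β : ZMod 4) := by
    intro e
    apply two_mul_cast
    have hne : e ∉ Finset.univ.erase e := Finset.notMem_erase _ _
    have hcard : (Finset.univ.erase e).card = n + 1 + 1 := by
      rw [Finset.card_erase_of_mem (Finset.mem_univ e), Finset.card_univ, hn]
      rfl
    have h1 : ((∑ S ∈ (Finset.univ.erase e).powerset,
        ((cyF (rho σ S)).filter fun T => (e, false) ∉ T ∧ (e, true) ∉ T).card : ℕ) : ZMod 2) =
        ((∑ S ∈ (Finset.univ.erase e).powerset,
          (S.card + cyc σ + 1 + comp σ S + comp σ (insert e S)) : ℕ) : ZMod 2) := by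
      rw [Nat.cast_sum, Nat.cast_sum]
      refine Finset.sum_congr rfl fun S hS => ?_
      exact miss_mod hcyc σ hp S e fun h => hne (Finset.mem_powerset.mp hS h)
    rw [h1]
    have h2 : ∑ S ∈ (Finset.univ.erase e).powerset,
          (S.card + cyc σ + 1 + comp σ S + comp σ (insert e S)) =
        (n + 2) * 2 ^ (n + 1) + (cyc σ + 1) * 2 ^ (n + 2) + β := by
      have huniv : (Finset.univ : Finset (Finset E)) =
          Finset.powerset (insert e (Finset.univ.erase e)) := by
        rw [Finset.insert_erase (Finset.mem_univ e), Finset.powerset_univ]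
      rw [hβ, huniv, Finset.sum_powerset_insert hne]
      have h3 : ∀ S : Finset E, S.card + cyc σ + 1 + comp σ S + comp σ (insert e S) =
          S.card + (cyc σ + 1) + (comp σ S + comp σ (insert e S)) := by
        intro S; ring
      simp only [h3]
      rw [Finset.sum_add_distrib, Finset.sum_add_distrib, sum_card' _ (n + 1) hcard,
        Finset.sum_const, Finset.card_powerset, hcard, smul_eq_mul, Finset.sum_add_distrib]
      ring
    rw [h2]
    push_cast
    have h4 : (2 : ZMod 2) = 0 := rfl
    rw [pow_succ, pow_succ, h4]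
    ring
  rw [hA, hB, Finset.mul_sum, Finset.sum_congr rfl fun e _ => hC e, Finset.sum_const,
    Finset.card_univ]
  -- the sum of the numbers of circuits
  have hD : ((∑ S : Finset E, cyc (rho σ S) : ℕ) : ZMod 4) = 2 * (β : ZMod 4) := by
    have h1 : (∑ S : Finset E, cyc (rho σ S)) + 2 ^ (n + 3) * cyc σ =
        (n + 3) * 2 ^ (n + 2) + 2 * β := by
      have h2 : ∑ S : Finset E, (cyc (rho σ S) + cyc σ) =
          ∑ S : Finset E, (S.card + 2 * comp σ S) :=
        Finset.sum_congr rfl fun S _ => hp S
      have hu : ∑ S : Finset E, S.card = (n + 3) * 2 ^ (n + 2) := by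
        have := sum_card' (Finset.univ : Finset E) (n + 2) (by rw [Finset.card_univ, hn])
        rw [Finset.powerset_univ] at this
        exact this
      rw [Finset.sum_add_distrib, Finset.sum_add_distrib, Finset.sum_const, Finset.card_univ,
        Fintype.card_finset, hn, smul_eq_mul, hu, ← Finset.mul_sum, ← hβ] at h2
      exact h2
    have h2 := congrArg (Nat.cast : ℕ → ZMod 4) h1
    push_cast at h2
    have h4 : (2 : ZMod 4) ^ (n + 3) = 0 := by
      rw [pow_add]
      have : (2 : ZMod 4) ^ 3 = 0 := rfl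
      rw [this, mul_zero]
    have h5 : (2 : ZMod 4) ^ (n + 2) = 0 := by
      rw [pow_add]
      have : (2 : ZMod 4) ^ 2 = 0 := rfl
      rw [this, mul_zero]
    rw [h4, h5, zero_mul, add_zero, mul_zero, zero_add] at h2
    push_cast
    exact h2
  rw [← Nat.cast_sum, hD]
  have hfin : ∑ S : Finset E, ((comp σ S : ℕ) : ZMod 4) = (β : ZMod 4) := by
    rw [hβ, Nat.cast_sum]
  rw [hfin]
  obtain ⟨k, hk⟩ := hev
  rw [hk, nsmul_eq_mul]
  push_cast
  have : ∀ a b : ZMod 4, 2 * b + (a + a) * (2 * b) = 2 * b := by decide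
  exact this _ _

/-- module PAI -/
theorem pai : PaiStmt := pai_aux H50.cycm

end

end Pool.Agent.HAM.H59P
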